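import Mathlib

set_option autoImplicit false

open MeasureTheory ProbabilityTheory
open scoped ENNReal NNReal

namespace Pool.Agent.TH994.LogIso

variable {E : Type*}

/-- sigma-algebra generated by the coordinates in `I`. -/
@[reducible] def cs (I : Set E) : MeasurableSpace (E → ℕ) :=
  ⨆ i ∈ I, MeasurableSpace.comap (fun ω : E → ℕ => ω i) inferInstance

/-- `A` is determined by the coordinates in `I` -/
def Det (I : Set E) (A : Set (E → ℕ)) : Prop :=
  ∀ ω ω' : E → ℕ, (∀ e ∈ I, ω e = ω' e) → ω ∈ A → ω' ∈ A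

theorem Det.mono {I J : Set E} {A : Set (E → ℕ)} (h : Det I A) (hIJ : I ⊆ J) : Det J A :=
  fun ω ω' hω hA => h ω ω' (fun e he => hω e (hIJ he)) hA

theorem Det.compl {I : Set E} {A : Set (E → ℕ)} (h : Det I A) : Det I Aᶜ :=
  fun ω ω' hω hA hA' => hA (h ω' ω (fun e he => (hω e he).symm) hA')

theorem Det.inter {I : Set E} {A B : Set (E → ℕ)} (hA : Det I A) (hB : Det I B) :
    Det I (A ∩ B) :=
  fun ω ω' hω h => ⟨hA ω ω' hω h.1, hB ω ω' hω h.2⟩

theorem Det.meas' {I : Set E} (hI : I.Finite) {A : Set (E → ℕ)} (h : Det I A) :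
    MeasurableSet[cs I] A := by
  classical
  have := hI.to_subtype
  let r : (E → ℕ) → (I → ℕ) := fun ω i => ω i
  have hr : MeasurableSpace.comap r MeasurableSpace.pi ≤ cs I := by
    rw [MeasurableSpace.pi, MeasurableSpace.comap_iSup]
    refine iSup_le fun i => ?_
    rw [MeasurableSpace.comap_comp]
    exact le_iSup₂_of_le i.1 i.2 le_rfl
  have e : A = r ⁻¹' (r '' A) := by
    refine subset_antisymm (Set.subset_preimage_image _ _) ?_
    rintro ω ⟨ω', hω', he⟩
    refine h ω' ω (fun e he' => ?_) hω'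
    exact congrFun he ⟨e, he'⟩
  rw [e]
  exact hr _ ⟨_, (Set.to_countable _).measurableSet, rfl⟩

theorem Det.meas {I : Set E} (hI : I.Finite) {A : Set (E → ℕ)} (h : Det I A) :
    MeasurableSet A := by
  have hle : cs I ≤ (MeasurableSpace.pi : MeasurableSpace (E → ℕ)) :=
    iSup₂_le fun i _ => (measurable_pi_apply i).comap_le
  exact hle _ (h.meas' hI)

theorem indep_real {P : E → Measure ℕ} [∀ e, IsProbabilityMeasure (P e)] {I J : Set E}
    (hI : I.Finite) (hJ : J.Finite) (hIJ : Disjoint I J) {A B : Set (E → ℕ)}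
    (hA : Det I A) (hB : Det J B) :
    (Measure.infinitePi P).real (A ∩ B) =
      (Measure.infinitePi P).real A * (Measure.infinitePi P).real B := by
  have h1 : iIndep (fun i : E => MeasurableSpace.comap (fun ω : E → ℕ => ω i) inferInstance)
      (Measure.infinitePi P) :=
    iIndepFun_infinitePi (P := P) (X := fun _ b => b) (by fun_prop)
  have h2 := indep_iSup_of_disjoint (fun i => (measurable_pi_apply i).comap_le) h1 hIJ
  have h3 := (Indep_iff _ _ _).1 h2 A B (hA.meas' hI) (hB.meas' hJ)
  rw [measureReal_def, h3, ENNReal.toReal_mul, ← measureReal_def, ← measureReal_def]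

end Pool.Agent.TH994.LogIso
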