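import Mathlib
import Pool.Agent.TH994.LogIso.Indep

set_option autoImplicit false
set_option linter.unusedSectionVars false

open Finset MeasureTheory
open scoped ENNReal NNReal

namespace Pool.Agent.TH994.LogIso

/-- unordered pairs of distinct elements -/
abbrev PairT (Γ : Type*) : Type _ := {e : Sym2 Γ // ¬ e.IsDiag}

/-- the direct sum of countably many groups of order two -/
abbrev H : Type := ℕ →₀ ZMod 2

/-- the (additive) group -/
abbrev X : Type := ℤ × H

/-- the `i`th generator of `H` -/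
noncomputable def gen (i : ℕ) : H := Finsupp.single i 1

theorem gen_self (i : ℕ) : gen i i = 1 := by simp [gen]

theorem gen_ne {i j : ℕ} (h : j ≠ i) : gen i j = 0 := by
  simp [gen, h.symm]

theorem gen_add_gen (i : ℕ) (h : H) : h + gen i + gen i = h := by
  rw [add_assoc]
  have : gen i + gen i = 0 := by
    unfold gen
    rw [← Finsupp.single_add]
    simp [show (1 : ZMod 2) + 1 = 0 from by decide]
  rw [this, add_zero]

theorem zmod2 (a b : ZMod 2) : a = b ∨ a = b + 1 := by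
  revert a b; decide

theorem zmod2_ne (a : ZMod 2) : a + 1 ≠ a := by
  revert a; decide

/-- the pairs used by the graph -/
def Nb (x z : X) : Prop :=
  (x.2 = z.2 ∧ (z.1 = x.1 + 1 ∨ x.1 = z.1 + 1)) ∨ (x.1 = z.1 ∧ ∃ i, z.2 = x.2 + gen i)

/-- the pair `x, z` is open -/
def opn (ω : PairT X → ℕ) (x z : X) : Prop := ∃ h : ¬ (s(x, z)).IsDiag, 0 < ω ⟨s(x, z), h⟩

theorem opn_symm {ω : PairT X → ℕ} {x z : X} (h : opn ω x z) : opn ω z x := by
  obtain ⟨h1, h2⟩ := h
  have e : (s(z, x) : Sym2 X) = s(x, z) := Sym2.eq_swap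
  refine ⟨by rwa [e], ?_⟩
  have : (⟨s(z, x), by rwa [e]⟩ : PairT X) = ⟨s(x, z), h1⟩ := Subtype.ext e
  rw [this]; exact h2

theorem opn_congr {ω ω' : PairT X → ℕ} {x z : X}
    (h : ∀ hd : ¬ (s(x, z)).IsDiag, ω ⟨s(x, z), hd⟩ = ω' ⟨s(x, z), hd⟩) (ho : opn ω' x z) :
    opn ω x z := by
  obtain ⟨h1, h2⟩ := ho
  exact ⟨h1, by rw [h]; exact h2⟩

/-- the coset of `h` modulo the first `k` coordinates -/
noncomputable def cos : ℕ → H → Finset H
  | 0, h => {h}
  | k + 1, h => cos k h ∪ cos k (h + gen k)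

theorem mem_cos {k : ℕ} {h h' : H} : h' ∈ cos k h ↔ ∀ i, k ≤ i → h' i = h i := by
  induction k generalizing h with
  | zero =>
    simp only [cos, Finset.mem_singleton, zero_le, true_imp_iff]
    exact Finsupp.ext_iff
  | succ k ih =>
    simp only [cos, Finset.mem_union, ih]
    constructor
    · rintro (h1 | h1) i hi
      · exact h1 i (by omega)
      · rw [h1 i (by omega), Finsupp.add_apply, gen_ne (by omega), add_zero]
    · intro h1
      rcases zmod2 (h' k) (h k) with h2 | h2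
      · left
        intro i hi
        rcases hi.eq_or_lt with rfl | hi
        · exact h2
        · exact h1 i hi
      · right
        intro i hi
        rw [Finsupp.add_apply]
        rcases hi.eq_or_lt with rfl | hi
        · rw [gen_self]; exact h2
        · rw [gen_ne (by omega), add_zero]; exact h1 i hi

theorem card_cos (k : ℕ) (h : H) : (cos k h).card ≤ 2 ^ k := by
  induction k generalizing h with
  | zero => simp [cos]
  | succ k ih =>
    simp only [cos]
    refine (Finset.card_union_le _ _).trans ?_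
    have := ih h
    have := ih (h + gen k)
    rw [pow_succ]; omega

theorem self_mem_cos (k : ℕ) (h : H) : h ∈ cos k h := mem_cos.2 fun _ _ => rfl

theorem cos_disj {k : ℕ} {h h' : H} (h1 : h' ∈ cos k h) (h2 : h' ∈ cos k (h + gen k)) : False := by
  have e1 := mem_cos.1 h1 k le_rfl
  have e2 := mem_cos.1 h2 k le_rfl
  rw [Finsupp.add_apply, gen_self, e1] at e2
  exact zmod2_ne _ e2.symm

theorem add_gen_mem {k i : ℕ} (hi : i < k) {h h' : H} (h1 : h' ∈ cos k h) :
    h' + gen i ∈ cos k h := by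
  rw [mem_cos] at h1 ⊢
  intro j hj
  rw [Finsupp.add_apply, gen_ne (by omega), add_zero]
  exact h1 j hj

/-- there is a closed cut of the tube over `cos k h` in the window from `a` to `b` -/
def Brk (k : ℕ) (h : H) (a b : ℤ) : Set (PairT X → ℕ) :=
  {ω | ∃ U : Set X, (∀ z : X, z.2 ∈ cos k h → z.1 ≤ a → z ∈ U) ∧
    (∀ z : X, z.2 ∈ cos k h → b ≤ z.1 → z ∉ U) ∧
    ∀ x z : X, x.2 ∈ cos k h → z.2 ∈ cos k h → x ∈ U → z ∉ U → Nb x z → ¬ opn ω x z}

/-- the pairs that matter for `Brk` -/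
def Ed (k : ℕ) (h : H) (a b : ℤ) : Set (PairT X) :=
  {e | (∀ z ∈ e.1, z.2 ∈ cos k h ∧ a ≤ z.1 ∧ z.1 ≤ b) ∧ ¬ (∀ z ∈ e.1, z.1 = a) ∧
    ¬ (∀ z ∈ e.1, z.1 = b)}

theorem pairs_finite {Γ : Type*} [DecidableEq Γ] (T : Finset Γ) :
    {e : PairT Γ | ∀ z ∈ e.1, z ∈ T}.Finite := by
  have h : ((T ×ˢ T).image (fun q : Γ × Γ => s(q.1, q.2)) : Set (Sym2 Γ)).Finite :=
    Finset.finite_toSet _
  refine Set.Finite.subset (h.preimage (f := fun e : PairT Γ => e.1)
    Subtype.val_injective.injOn) ?_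
  rintro ⟨e, he⟩ hz
  induction e using Sym2.ind with
  | _ x y =>
    simp only [Set.mem_preimage, Finset.coe_image, Set.mem_image]
    refine ⟨(x, y), ?_, rfl⟩
    rw [Finset.mem_coe, Finset.mem_product]
    exact ⟨hz x (Sym2.mem_mk_left _ _), hz y (Sym2.mem_mk_right _ _)⟩

theorem Ed_finite (k : ℕ) (h : H) (a b : ℤ) : (Ed k h a b).Finite := by
  refine (pairs_finite (Finset.Icc a b ×ˢ cos k h)).subset ?_
  rintro e ⟨he, _⟩ z hz
  rw [Finset.mem_product, Finset.mem_Icc]
  exact ⟨(he z hz).2, (he z hz).1⟩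

theorem Brk_det (k : ℕ) (h : H) (a b : ℤ) : Det (Ed k h a b) (Brk k h a b) := by
  rintro ω ω' hω ⟨U, h1, h2, h3⟩
  refine ⟨U, h1, h2, fun x z hx hz hxU hzU hnb hopn => h3 x z hx hz hxU hzU hnb ?_⟩
  refine opn_congr (fun hd => hω _ ?_) hopn
  have hxb : x.1 < b := by
    by_contra hno
    exact h2 x hx (not_lt.1 hno) hxU
  have hza : a < z.1 := by
    by_contra hno
    exact hzU (h1 z hz (not_lt.1 hno))
  have hxa : a ≤ x.1 := by
    rcases hnb with ⟨_, h4 | h4⟩ | ⟨h4, _⟩ <;> omega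
  have hzb : z.1 ≤ b := by
    rcases hnb with ⟨_, h4 | h4⟩ | ⟨h4, _⟩ <;> omega
  refine ⟨fun y hy => ?_, fun hall => ?_, fun hall => ?_⟩
  · rcases Sym2.mem_iff.1 hy with rfl | rfl
    · exact ⟨hx, hxa, hxb.le⟩
    · exact ⟨hz, hza.le, hzb⟩
  · have := hall z (Sym2.mem_mk_right _ _)
    omega
  · have := hall x (Sym2.mem_mk_left _ _)
    omega

theorem Brk_mono {k : ℕ} {h : H} {a b a' b' : ℤ} (ha : a' ≤ a) (hb : b ≤ b') :
    Brk k h a b ⊆ Brk k h a' b' := by
  rintro ω ⟨U, h1, h2, h3⟩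
  exact ⟨U, fun z hz hza => h1 z hz (hza.trans ha), fun z hz hzb => h2 z hz (hb.trans hzb), h3⟩

/-- all the pairs between the two halves of the next tube are closed in the window -/
def CK (k : ℕ) (h : H) (a b : ℤ) : Set (PairT X → ℕ) :=
  {ω | ∀ y : ℤ, a < y → y < b → ∀ g ∈ cos k h, ¬ opn ω (y, g) (y, g + gen k)}

theorem merge {k : ℕ} {h : H} {a b : ℤ} :
    (Brk k h a b ∩ Brk k (h + gen k) a b) ∩ CK k h a b ⊆ Brk (k + 1) h a b := by
  rintro ω ⟨⟨⟨U1, h1, h2, h3⟩, ⟨U2, h1', h2', h3'⟩⟩, hCK⟩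
  refine ⟨{z | (z.2 ∈ cos k h ∧ z ∈ U1) ∨ (z.2 ∈ cos k (h + gen k) ∧ z ∈ U2)}, ?_, ?_, ?_⟩
  · intro z hz hza
    simp only [cos, Finset.mem_union] at hz
    rcases hz with hz | hz
    · exact Or.inl ⟨hz, h1 z hz hza⟩
    · exact Or.inr ⟨hz, h1' z hz hza⟩
  · rintro z _ hzb (⟨hz, hzU⟩ | ⟨hz, hzU⟩)
    · exact h2 z hz hzb hzU
    · exact h2' z hz hzb hzU
  · intro x z hx hz hxU hzU hnb hopn
    simp only [cos, Finset.mem_union] at hx hz
    have key : ∀ i (u v : H), v = u + gen i → u ∈ cos k h → v ∈ cos k (h + gen k) → i = k := by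
      intro i u v huv hu hv
      by_contra hne
      have e1 := mem_cos.1 hu k le_rfl
      have e2 := mem_cos.1 hv k le_rfl
      rw [huv, Finsupp.add_apply, gen_ne (Ne.symm hne), add_zero, e1, Finsupp.add_apply,
        gen_self] at e2
      exact zmod2_ne _ e2.symm
    rcases hxU with ⟨hx1, hxU⟩ | ⟨hx1, hxU⟩
    · rcases hz with hz1 | hz1
      · exact h3 x z hx1 hz1 hxU (fun hzU' => hzU (Or.inl ⟨hz1, hzU'⟩)) hnb hopn
      · -- the two halves
        rcases hnb with ⟨h4, _⟩ | ⟨h4, i, h5⟩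
        · rw [h4] at hx1
          exact cos_disj hx1 hz1
        · obtain rfl := key i _ _ h5 hx1 hz1
          have hxb : x.1 < b := by
            by_contra hno
            exact h2 x hx1 (not_lt.1 hno) hxU
          have hza : a < z.1 := by
            by_contra hno
            exact hzU (Or.inr ⟨hz1, h1' z hz1 (not_lt.1 hno)⟩)
          refine hCK x.1 (by omega) hxb x.2 hx1 ?_
          have e : z = (x.1, x.2 + gen i) := Prod.ext h4.symm h5
          rw [← e]; exact hopn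
    · rcases hz with hz1 | hz1
      · rcases hnb with ⟨h4, _⟩ | ⟨h4, i, h5⟩
        · rw [← h4] at hz1
          exact cos_disj hz1 hx1
        · have h5' : x.2 = z.2 + gen i := by rw [h5, gen_add_gen]
          obtain rfl := key i _ _ h5' hz1 hx1
          have hxb : x.1 < b := by
            by_contra hno
            exact h2' x hx1 (not_lt.1 hno) hxU
          have hza : a < z.1 := by
            by_contra hno
            exact hzU (Or.inl ⟨hz1, h1 z hz1 (not_lt.1 hno)⟩)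
          refine hCK z.1 hza (by omega) z.2 hz1 ?_
          have e : x = (z.1, z.2 + gen i) := Prod.ext h4 h5'
          rw [← e]; exact opn_symm hopn
      · exact h3' x z hx1 hz1 hxU (fun hzU' => hzU (Or.inr ⟨hz1, hzU'⟩)) hnb hopn

/-- the pairs that matter for `CK` -/
def EK (k : ℕ) (h : H) (a b : ℤ) : Set (PairT X) :=
  {e | ∃ y ∈ Finset.Ioo a b, ∃ g ∈ cos k h, e.1 = s((y, g), (y, g + gen k))}

theorem CK_det (k : ℕ) (h : H) (a b : ℤ) : Det (EK k h a b) (CK k h a b) := by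
  intro ω ω' hω hCK y hya hyb g hg hopn
  refine hCK y hya hyb g hg (opn_congr (fun hd => hω _ ?_) hopn)
  exact ⟨y, Finset.mem_Ioo.2 ⟨hya, hyb⟩, g, hg, rfl⟩

theorem ne_add_gen (g : H) (k : ℕ) : g + gen k ≠ g := by
  intro h
  have := DFunLike.congr_fun h k
  rw [Finsupp.add_apply, gen_self] at this
  exact zmod2_ne _ this

/-- the pair in the direction `i` -/
noncomputable def pk (i : ℕ) (x : X) : PairT X :=
  ⟨s(x, (x.1, x.2 + gen i)), by
    rw [Sym2.mk_isDiag_iff]
    intro h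
    exact ne_add_gen x.2 i (congrArg Prod.snd h).symm⟩

/-- the pair in the direction of the line -/
def pl (x : X) : PairT X :=
  ⟨s(x, (x.1 + 1, x.2)), by
    rw [Sym2.mk_isDiag_iff]
    intro h
    have := congrArg Prod.fst h
    simp at this⟩

theorem EK_eq (k : ℕ) (h : H) (a b : ℤ) :
    EK k h a b = ((Finset.Ioo a b ×ˢ cos k h).image (pk k) : Finset (PairT X)) := by
  ext e
  simp only [EK, Set.mem_ofPred_eq, Finset.coe_image, Set.mem_image, Finset.mem_coe,
    Finset.mem_product]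
  constructor
  · rintro ⟨y, hy, g, hg, he⟩
    exact ⟨(y, g), ⟨hy, hg⟩, Subtype.ext he.symm⟩
  · rintro ⟨⟨y, g⟩, ⟨hy, hg⟩, rfl⟩
    exact ⟨y, hy, g, hg, rfl⟩

section Prob

variable {P : PairT X → Measure ℕ} [∀ e, IsProbabilityMeasure (P e)] {τ : ℝ} {β : ℕ → ℝ}

theorem prob_closed (K : Finset (PairT X)) :
    Measure.infinitePi P {ω | ∀ e ∈ K, ω e = 0} = ∏ e ∈ K, P e {0} := by
  rw [← Measure.infinitePi_pi P (s := K) (t := fun _ => {0})
    (fun _ _ => MeasurableSet.singleton 0)]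
  rfl

theorem prob_closed_real (K : Finset (PairT X)) :
    (Measure.infinitePi P).real {ω | ∀ e ∈ K, ω e = 0} = ∏ e ∈ K, (P e).real {0} := by
  rw [measureReal_def, prob_closed, ENNReal.toReal_prod]
  rfl

theorem prob_CK (hk : ∀ i x, (P (pk i x)).real {0} = Real.exp (-τ * β i)) (hτ : 0 ≤ τ)
    (hβ : ∀ i, 0 ≤ β i) (k : ℕ) (h : H) (a : ℤ) (M : ℕ) :
    Real.exp (-τ * (β k * (2 ^ k * M))) ≤
      (Measure.infinitePi P).real (CK k h a (a + M)) := by
  set K : Finset (PairT X) := (Finset.Ioo a (a + M) ×ˢ cos k h).image (pk k) with hK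
  have hsub : {ω : PairT X → ℕ | ∀ e ∈ K, ω e = 0} ⊆ CK k h a (a + M) := by
    intro ω hω y hya hyb g hg hopn
    obtain ⟨h1, h2⟩ := hopn
    have := hω (pk k (y, g)) (Finset.mem_image.2
      ⟨(y, g), Finset.mem_product.2 ⟨Finset.mem_Ioo.2 ⟨hya, hyb⟩, hg⟩, rfl⟩)
    have h3 : ω ⟨s((y, g), (y, g + gen k)), h1⟩ = 0 := this
    omega
  refine le_trans ?_ (measureReal_mono hsub (measure_ne_top _ _))
  rw [prob_closed_real]
  have hc : K.card ≤ M * 2 ^ k := by
    refine Finset.card_image_le.trans ?_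
    rw [Finset.card_product]
    refine Nat.mul_le_mul ?_ (card_cos k h)
    rw [Int.card_Ioo]; omega
  have hprod : ∏ e ∈ K, (P e).real {0} = Real.exp (-τ * β k) ^ K.card := by
    rw [Finset.prod_congr rfl (g := fun _ => Real.exp (-τ * β k)), Finset.prod_const]
    intro e he
    obtain ⟨x, _, rfl⟩ := Finset.mem_image.1 he
    exact hk k x
  rw [hprod, ← Real.exp_nat_mul]
  apply Real.exp_le_exp.2
  have h1 : (K.card : ℝ) ≤ M * 2 ^ k := by exact_mod_cast hc
  have h2 : 0 ≤ τ * β k := mul_nonneg hτ (hβ k)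
  nlinarith

theorem prob_base (hl : ∀ x, (P (pl x)).real {0} = Real.exp (-τ)) (h : H) (a : ℤ) :
    Real.exp (-τ) ≤ (Measure.infinitePi P).real (Brk 0 h a (a + 1)) := by
  have hsub : {ω : PairT X → ℕ | ∀ e ∈ ({pl (a, h)} : Finset (PairT X)), ω e = 0} ⊆
      Brk 0 h a (a + 1) := by
    intro ω hω
    have hω' : ω (pl (a, h)) = 0 := hω _ (Finset.mem_singleton_self _)
    refine ⟨{z | z.1 ≤ a}, fun z _ hz => hz, fun z _ hz hz' => ?_, ?_⟩
    · have : z.1 ≤ a := hz'
      omega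
    · intro x z hx hz hxU hzU hnb hopn
      simp only [cos, Finset.mem_singleton] at hx hz
      have hxa : x.1 ≤ a := hxU
      have hza : ¬ z.1 ≤ a := hzU
      rcases hnb with ⟨_, h4 | h4⟩ | ⟨h4, _⟩
      · have e1 : x = (a, h) := Prod.ext (by show x.1 = a; omega) hx
        have e2 : z = (a + 1, h) := Prod.ext (by show z.1 = a + 1; omega) hz
        subst e1; subst e2
        obtain ⟨h5, h6⟩ := hopn
        have h7 : ω ⟨s((a, h), (a + 1, h)), h5⟩ = 0 := hω'
        omega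
      · omega
      · omega
  refine le_trans ?_ (measureReal_mono hsub (measure_ne_top _ _))
  rw [prob_closed_real, Finset.prod_singleton, hl]

theorem prob_merge (hk : ∀ i x, (P (pk i x)).real {0} = Real.exp (-τ * β i)) (hτ : 0 ≤ τ)
    (hβ : ∀ i, 0 ≤ β i) {k M : ℕ} {p : ℝ} (hp0 : 0 ≤ p)
    (hp : ∀ h a, p ≤ (Measure.infinitePi P).real (Brk k h a (a + M))) (h : H) (a : ℤ) :
    Real.exp (-τ * (β k * (2 ^ k * M))) * p ^ 2 ≤
      (Measure.infinitePi P).real (Brk (k + 1) h a (a + M)) := by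
  refine le_trans ?_ (measureReal_mono merge (measure_ne_top _ _))
  have hd1 : Disjoint (Ed k h a (a + M)) (Ed k (h + gen k) a (a + M)) := by
    rw [Set.disjoint_left]
    rintro e ⟨he, _⟩ ⟨he', _⟩
    obtain ⟨z, hz⟩ : ∃ z, z ∈ e.1 := by
      induction e.1 using Sym2.ind with
      | _ x y => exact ⟨x, Sym2.mem_mk_left _ _⟩
    exact cos_disj (he z hz).1 (he' z hz).1
  have hd2 : Disjoint (Ed k h a (a + M) ∪ Ed k (h + gen k) a (a + M)) (EK k h a (a + M)) := by
    rw [Set.disjoint_left]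
    rintro e he ⟨y, hy, g, hg, he0⟩
    have hg' : g + gen k ∈ cos k (h + gen k) := by
      rw [mem_cos] at hg ⊢
      intro i hi
      rw [Finsupp.add_apply, Finsupp.add_apply, hg i hi]
    rcases he with ⟨he, _⟩ | ⟨he, _⟩
    · have := (he (y, g + gen k) (by rw [he0]; exact Sym2.mem_mk_right _ _)).1
      exact cos_disj this hg'
    · have := (he (y, g) (by rw [he0]; exact Sym2.mem_mk_left _ _)).1
      exact cos_disj hg this
  have hfEK : (EK k h a (a + M)).Finite := by rw [EK_eq]; exact Finset.finite_toSet _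
  have e1 := indep_real (P := P) ((Ed_finite k h a (a + M)).union (Ed_finite k (h + gen k) a
    (a + M))) hfEK hd2 (((Brk_det k h a (a + M)).mono Set.subset_union_left).inter
      ((Brk_det k (h + gen k) a (a + M)).mono Set.subset_union_right)) (CK_det k h a (a + M))
  have e2 := indep_real (P := P) (Ed_finite k h a (a + M)) (Ed_finite k (h + gen k) a (a + M))
    hd1 (Brk_det k h a (a + M)) (Brk_det k (h + gen k) a (a + M))
  rw [e1, e2]
  have h1 := hp h a
  have h2 := hp (h + gen k) a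
  have h3 := prob_CK (P := P) hk hτ hβ k h a M
  calc Real.exp (-τ * (β k * (2 ^ k * M))) * p ^ 2
      = (p * p) * Real.exp (-τ * (β k * (2 ^ k * M))) := by ring
    _ ≤ _ := mul_le_mul (mul_le_mul h1 h2 hp0 (hp0.trans h1)) h3 (Real.exp_pos _).le
        (mul_nonneg (hp0.trans h1) (hp0.trans h2))

theorem Ed_disj (k : ℕ) (h : H) (a b c : ℤ) : Disjoint (Ed k h a b) (Ed k h b c) := by
  rw [Set.disjoint_left]
  rintro e ⟨he, _, hne⟩ ⟨he', _, _⟩
  apply hne
  intro z hz
  have h1 := (he z hz).2.2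
  have h2 := (he' z hz).2.1
  omega

theorem prob_window {k M : ℕ} {p : ℝ} (hp1 : p ≤ 1)
    (hp : ∀ h a, p ≤ (Measure.infinitePi P).real (Brk k h a (a + M))) (n : ℕ) (h : H) (a : ℤ) :
    (Measure.infinitePi P).real (Brk k h a (a + (n * M : ℕ)))ᶜ ≤ (1 - p) ^ n := by
  induction n with
  | zero => simp
  | succ n ih =>
    have hsub : (Brk k h a (a + ((n + 1) * M : ℕ)))ᶜ ⊆ (Brk k h a (a + (n * M : ℕ)))ᶜ ∩
        (Brk k h (a + (n * M : ℕ)) (a + (n * M : ℕ) + M))ᶜ := by
      intro ω hω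
      refine ⟨fun h1 => hω (Brk_mono le_rfl ?_ h1), fun h1 => hω (Brk_mono ?_ ?_ h1)⟩
      · push_cast; nlinarith
      · push_cast; nlinarith
      · push_cast; nlinarith
    refine (measureReal_mono hsub (measure_ne_top _ _)).trans ?_
    rw [indep_real (P := P) (Ed_finite _ _ _ _) (Ed_finite _ _ _ _) (Ed_disj _ _ _ _ _)
      (Brk_det _ _ _ _).compl (Brk_det _ _ _ _).compl, pow_succ]
    refine mul_le_mul ih ?_ measureReal_nonneg (pow_nonneg (by linarith) _)
    rw [probReal_compl_eq_one_sub ((Brk_det _ _ _ _).meas (Ed_finite _ _ _ _))]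
    have := hp h (a + (n * M : ℕ))
    linarith

end Prob

end Pool.Agent.TH994.LogIso
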