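import Mathlib
import Pool.Agent.TH994.LogIso.Tube

set_option autoImplicit false
set_option linter.unusedSectionVars false

open Finset MeasureTheory
open scoped ENNReal NNReal

namespace Pool.Agent.TH994.LogIso

/-- all pairs leaving the tube are closed near `y0` -/
def Out (k : ℕ) (h : H) (y0 : ℤ) (N : ℕ) : Set (PairT X → ℕ) :=
  {ω | ∀ x : X, x.2 ∈ cos k h → y0 - N ≤ x.1 → x.1 ≤ y0 + N → ∀ i, k ≤ i →
    ¬ opn ω x (x.1, x.2 + gen i)}

theorem finite_cluster {ω : PairT X → ℕ} {G : SimpleGraph X}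
    (hG : ∀ x z, G.Adj x z ↔ opn ω x z) (hnb : ∀ x z, opn ω x z → Nb x z)
    {k : ℕ} {h : H} {y0 : ℤ} {N : ℕ} (hL : ω ∈ Brk k h (y0 - N) y0)
    (hR : ω ∈ Brk k h y0 (y0 + N)) (hO : ω ∈ Out k h y0 N) :
    {y | G.Reachable (y0, h) y}.Finite := by
  obtain ⟨UL, h1, h2, h3⟩ := hL
  obtain ⟨UR, h1', h2', h3'⟩ := hR
  set A : Set X := {z | z.2 ∈ cos k h ∧ z ∈ UR ∧ z ∉ UL} with hA
  have hfin : A.Finite := by
    refine (Finset.finite_toSet (Finset.Icc (y0 - N) (y0 + N) ×ˢ cos k h)).subset ?_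
    rintro z ⟨hz, hzR, hzL⟩
    rw [Finset.mem_coe, Finset.mem_product, Finset.mem_Icc]
    refine ⟨⟨?_, ?_⟩, hz⟩
    · by_contra hno
      exact hzL (h1 z hz (by omega))
    · by_contra hno
      exact h2' z hz (by omega) hzR
  have hoA : ((y0, h) : X) ∈ A :=
    ⟨self_mem_cos k h, h1' _ (self_mem_cos k h) le_rfl, h2 _ (self_mem_cos k h) le_rfl⟩
  have hclosed : ∀ x z, x ∈ A → G.Adj x z → z ∈ A := by
    rintro x z ⟨hx, hxR, hxL⟩ hadj
    have hopn := (hG x z).1 hadj
    have hn := hnb x z hopn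
    have hz : z.2 ∈ cos k h := by
      rcases hn with ⟨h4, _⟩ | ⟨h4, i, h5⟩
      · rw [← h4]; exact hx
      · by_cases hi : i < k
        · rw [h5]; exact add_gen_mem hi hx
        · exfalso
          refine hO x hx ?_ ?_ i (not_lt.1 hi) ?_
          · by_contra hno
            exact hxL (h1 x hx (by omega))
          · by_contra hno
            exact h2' x hx (by omega) hxR
          · have e : z = (x.1, x.2 + gen i) := Prod.ext h4.symm h5
            rw [← e]; exact hopn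
    refine ⟨hz, ?_, ?_⟩
    · by_contra hzR
      exact h3' x z hx hz hxR hzR hn hopn
    · intro hzL
      exact h3 z x hz hx hzL hxL (hnb z x (opn_symm hopn)) (opn_symm hopn)
  refine hfin.subset ?_
  rintro y ⟨p⟩
  have key : ∀ x z, G.Walk x z → x ∈ A → z ∈ A := by
    intro x z p
    induction p with
    | nil => exact id
    | cons hadj _ ih => exact fun hx => ih (hclosed _ _ hx hadj)
  exact key _ _ p hoA

section Prob

variable {P : PairT X → Measure ℕ} [∀ e, IsProbabilityMeasure (P e)] {τ : ℝ} {β : ℕ → ℝ}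

theorem prob_open (e : PairT X) :
    Measure.infinitePi P {ω | ω e ≠ 0} = 1 - P e {0} := by
  have h1 : {ω : PairT X → ℕ | ω e ≠ 0} = {ω | ∀ e' ∈ ({e} : Finset (PairT X)), ω e' = 0}ᶜ := by
    ext ω; simp
  have hm : MeasurableSet {ω : PairT X → ℕ | ∀ e' ∈ ({e} : Finset (PairT X)), ω e' = 0} := by
    have : {ω : PairT X → ℕ | ∀ e' ∈ ({e} : Finset (PairT X)), ω e' = 0} =
        (fun ω : PairT X → ℕ => ω e) ⁻¹' {0} := by ext ω; simp
    rw [this]
    exact measurable_pi_apply e (MeasurableSet.singleton 0)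
  rw [h1, prob_compl_eq_one_sub hm, prob_closed, Finset.prod_singleton]

theorem prob_open_le {e : PairT X} {u : ℝ} (h : (P e).real {0} = Real.exp (-u)) :
    Measure.infinitePi P {ω | ω e ≠ 0} ≤ ENNReal.ofReal u := by
  rw [prob_open]
  have h1 : P e {0} = ENNReal.ofReal (Real.exp (-u)) := by
    rw [← h, measureReal_def, ENNReal.ofReal_toReal (measure_ne_top _ _)]
  rw [h1, ← ENNReal.ofReal_one, ← ENNReal.ofReal_sub _ (Real.exp_pos _).le]
  apply ENNReal.ofReal_le_ofReal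
  have := Real.add_one_le_exp (-u)
  linarith

theorem prob_Out (hk : ∀ i x, (P (pk i x)).real {0} = Real.exp (-τ * β i)) (hτ : 0 ≤ τ)
    (hβ : ∀ i, 0 ≤ β i) (hβ2 : ∀ i, β (i + 1) ≤ β i / 2) (k : ℕ) (h : H) (y0 : ℤ) (N : ℕ) :
    Measure.infinitePi P (Out k h y0 N)ᶜ ≤
      ENNReal.ofReal ((2 * N + 1) * 2 ^ k * (2 * τ * β k)) := by
  set box : Finset X := Finset.Icc (y0 - N) (y0 + N) ×ˢ cos k h with hbox
  have hsub : (Out k h y0 N)ᶜ ⊆ ⋃ x ∈ box, ⋃ j : ℕ, {ω : PairT X → ℕ | ω (pk (k + j) x) ≠ 0} := by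
    intro ω hω
    simp only [Out, Set.mem_compl_iff, Set.mem_ofPred_eq, not_forall, not_not] at hω
    obtain ⟨x, hx, h1, h2, i, hi, h3, h4⟩ := hω
    rw [Set.mem_iUnion₂]
    refine ⟨x, Finset.mem_product.2 ⟨Finset.mem_Icc.2 ⟨h1, h2⟩, hx⟩, ?_⟩
    rw [Set.mem_iUnion]
    obtain ⟨j, rfl⟩ := Nat.exists_eq_add_of_le hi
    exact ⟨j, h4.ne'⟩
  have hβj : ∀ j, β (k + j) ≤ β k * (1 / 2) ^ j := by
    intro j
    induction j with
    | zero => simp
    | succ j ih =>
      have := hβ2 (k + j)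
      rw [pow_succ, ← add_assoc]
      linarith
  have hin : ∀ x ∈ box, Measure.infinitePi P (⋃ j : ℕ, {ω : PairT X → ℕ | ω (pk (k + j) x) ≠ 0}) ≤
      ENNReal.ofReal (2 * τ * β k) := by
    intro x _
    refine (measure_iUnion_le _).trans ?_
    have h1 : ∀ j : ℕ, Measure.infinitePi P {ω : PairT X → ℕ | ω (pk (k + j) x) ≠ 0} ≤
        ENNReal.ofReal (τ * β k * (1 / 2) ^ j) := by
      intro j
      refine (prob_open_le (u := τ * β (k + j)) ?_).trans ?_
      · rw [hk]; congr 1; ring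
      · apply ENNReal.ofReal_le_ofReal
        rw [mul_assoc]
        exact mul_le_mul_of_nonneg_left (hβj j) hτ
    refine (ENNReal.tsum_le_tsum h1).trans ?_
    have hτβ : 0 ≤ τ * β k := mul_nonneg hτ (hβ k)
    rw [← ENNReal.ofReal_tsum_of_nonneg (fun j => mul_nonneg hτβ (by positivity))
      ((summable_geometric_of_lt_one (by norm_num) (by norm_num)).mul_left _)]
    rw [tsum_mul_left, tsum_geometric_two]
    apply le_of_eq; congr 1; ring
  refine (measure_mono hsub).trans ((measure_biUnion_finset_le _ _).trans ?_)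
  refine (Finset.sum_le_sum hin).trans ?_
  rw [Finset.sum_const, nsmul_eq_mul]
  have hc : (box.card : ℝ) ≤ (2 * N + 1) * 2 ^ k := by
    have : box.card ≤ (2 * N + 1) * 2 ^ k := by
      rw [hbox, Finset.card_product]
      refine Nat.mul_le_mul ?_ (card_cos k h)
      rw [Int.card_Icc]; omega
    exact_mod_cast this
  have h2 : (box.card : ℝ≥0∞) = ENNReal.ofReal (box.card : ℝ) := by simp
  rw [h2, ← ENNReal.ofReal_mul (by positivity)]
  apply ENNReal.ofReal_le_ofReal
  refine mul_le_mul_of_nonneg_right hc ?_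
  have := mul_nonneg hτ (hβ k)
  linarith

/-- the lower bounds for the probabilities of a break -/
noncomputable def pp (τ : ℝ) : ℕ → ℝ
  | 0 => Real.exp (-τ)
  | k + 1 => Real.exp (-τ) * (1 - (1 - pp τ k) ^ (2 ^ 2 ^ k)) ^ 2

theorem pp_pos {τ : ℝ} (hτ : 0 ≤ τ) (k : ℕ) : 0 < pp τ k ∧ pp τ k ≤ 1 := by
  have he : Real.exp (-τ) ≤ 1 := by rw [Real.exp_le_one_iff]; linarith
  induction k with
  | zero => exact ⟨Real.exp_pos _, he⟩
  | succ k ih =>
    have h1 : 0 ≤ 1 - pp τ k := by linarith [ih.2]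
    have h2 : (1 - pp τ k) ^ (2 ^ 2 ^ k) < 1 := pow_lt_one₀ h1 (by linarith [ih.1]) (by positivity)
    have h3 : 0 ≤ (1 - pp τ k) ^ (2 ^ 2 ^ k) := pow_nonneg h1 _
    have h4 : 0 < (1 - (1 - pp τ k) ^ (2 ^ 2 ^ k)) ^ 2 := by
      have : 0 < 1 - (1 - pp τ k) ^ (2 ^ 2 ^ k) := by linarith
      positivity
    have h5 : (1 - (1 - pp τ k) ^ (2 ^ 2 ^ k)) ^ 2 ≤ 1 := pow_le_one₀ (by linarith) (by linarith)
    refine ⟨mul_pos (Real.exp_pos _) h4, ?_⟩
    show Real.exp (-τ) * (1 - (1 - pp τ k) ^ (2 ^ 2 ^ k)) ^ 2 ≤ 1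
    exact mul_le_one₀ he h4.le h5

theorem pp_large {τ : ℝ} (hτ : 0 ≤ τ) (K : ℕ) : ∃ k, K ≤ k ∧ Real.exp (-τ) / 4 ≤ pp τ k := by
  by_contra hno
  push Not at hno
  -- the recursion when the break probabilities stay small
  set a : ℕ → ℝ := fun k => -Real.log (pp τ k) with ha
  have ha0 : ∀ k, 0 ≤ a k := fun k => by
    have := Real.log_nonpos (pp_pos hτ k).1.le (pp_pos hτ k).2
    simp only [ha]; linarith
  have hstep : ∀ k, K ≤ k → a (k + 1) ≤ τ + Real.log 4 + 2 * a k - 2 * (2 ^ k * Real.log 2) := by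
    intro k hk
    obtain ⟨hp0, hp1⟩ := pp_pos hτ k
    set p := pp τ k with hp
    set n : ℕ := 2 ^ 2 ^ k with hn
    have h1 : (1 - p) ^ n ≤ Real.exp (-(n * p)) := by
      have : 1 - p ≤ Real.exp (-p) := by have := Real.add_one_le_exp (-p); linarith
      calc (1 - p) ^ n ≤ Real.exp (-p) ^ n := pow_le_pow_left₀ (by linarith) this n
        _ = Real.exp (-(n * p)) := by rw [← Real.exp_nat_mul]; congr 1; ring
    have h2 := hno (k + 1) (by omega)
    have h3 : pp τ (k + 1) = Real.exp (-τ) * (1 - (1 - p) ^ n) ^ 2 := rfl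
    rw [h3] at h2
    have hb0 : 0 ≤ (1 - p) ^ n := pow_nonneg (by linarith) n
    have h4 : 1 - (1 - p) ^ n < 1 / 2 := by
      by_contra hcon
      rw [not_lt] at hcon
      have : (1 / 2 : ℝ) ^ 2 ≤ (1 - (1 - p) ^ n) ^ 2 := pow_le_pow_left₀ (by norm_num) hcon 2
      have := mul_le_mul_of_nonneg_left this (Real.exp_pos (-τ)).le
      linarith
    have hx0 : 0 < (n : ℝ) * p := by positivity
    have h5 : (n : ℝ) * p < 1 := by
      by_contra hcon
      rw [not_lt] at hcon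
      have : Real.exp (-(n * p)) ≤ Real.exp (-1) := Real.exp_le_exp.2 (by linarith)
      have h6 : Real.exp (-1) ≤ 1 / 2 := by
        rw [Real.exp_neg]
        rw [inv_le_comm₀ (Real.exp_pos _) (by norm_num)]
        have := Real.add_one_le_exp (1 : ℝ)
        linarith
      linarith
    have h6 : (n : ℝ) * p / 2 ≤ 1 - (1 - p) ^ n := by
      have h7 : Real.exp (-(n * p)) ≤ 1 - n * p / 2 := by
        have hc := convexOn_exp.2 (Set.mem_univ (0 : ℝ)) (Set.mem_univ (-1 : ℝ))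
          (by linarith : 0 ≤ 1 - n * p) hx0.le (by ring)
        simp only [smul_eq_mul, mul_zero, zero_add, Real.exp_zero, mul_one] at hc
        have h6 : Real.exp (-1) ≤ 1 / 2 := by
          rw [Real.exp_neg]
          rw [inv_le_comm₀ (Real.exp_pos _) (by norm_num)]
          have := Real.add_one_le_exp (1 : ℝ)
          linarith
        have e : (n : ℝ) * p * -1 = -(n * p) := by ring
        rw [e] at hc
        nlinarith
      linarith
    have h7 : Real.exp (-τ) * ((n : ℝ) * p / 2) ^ 2 ≤ pp τ (k + 1) := by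
      rw [h3]
      exact mul_le_mul_of_nonneg_left (pow_le_pow_left₀ (by positivity) h6 2) (Real.exp_pos _).le
    have h8 := Real.log_le_log (by positivity) h7
    have h9 : Real.log (Real.exp (-τ) * ((n : ℝ) * p / 2) ^ 2) =
        -τ + 2 * (2 ^ k * Real.log 2 + Real.log p - Real.log 2) := by
      rw [Real.log_mul (Real.exp_pos _).ne' (by positivity), Real.log_exp, Real.log_pow,
        Real.log_div hx0.ne' (by norm_num), Real.log_mul (by positivity) hp0.ne', hn]
      push_cast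
      rw [Real.log_pow]
      push_cast
      ring
    rw [h9] at h8
    have h10 : Real.log 4 = 2 * Real.log 2 := by
      rw [show (4 : ℝ) = 2 ^ 2 by norm_num, Real.log_pow]; push_cast; ring
    simp only [ha]
    rw [h10]
    linarith
  set C := τ + Real.log 4 with hC
  have hlog2 : 0 < Real.log 2 := Real.log_pos (by norm_num)
  have hC0 : 0 ≤ C := by have := Real.log_pos (by norm_num : (1 : ℝ) < 4); linarith
  have hind : ∀ j : ℕ, (a (K + j) + C) / 2 ^ (K + j) ≤ (a K + C) / 2 ^ K - j * Real.log 2 := by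
    intro j
    induction j with
    | zero => simp
    | succ j ih =>
      have h1 := hstep (K + j) (by omega)
      have h2 : (a (K + (j + 1)) + C) / 2 ^ (K + (j + 1)) ≤
          (2 * a (K + j) + 2 * C - 2 * (2 ^ (K + j) * Real.log 2)) / 2 ^ (K + (j + 1)) := by
        apply div_le_div_of_nonneg_right _ (by positivity)
        rw [← add_assoc K j 1]
        linarith
      have h3 : (2 * a (K + j) + 2 * C - 2 * (2 ^ (K + j) * Real.log 2)) / 2 ^ (K + (j + 1)) =
          (a (K + j) + C) / 2 ^ (K + j) - Real.log 2 := by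
        rw [← add_assoc K j 1, pow_succ]
        field_simp
      rw [h3] at h2
      push_cast
      linarith
  obtain ⟨j, hj⟩ := exists_nat_gt (((a K + C) / 2 ^ K) / Real.log 2)
  rw [div_lt_iff₀ hlog2] at hj
  have h1 := hind j
  have h2 : 0 ≤ (a (K + j) + C) / 2 ^ (K + j) := by
    have := ha0 (K + j)
    positivity
  linarith

/-- the weights -/
noncomputable def bb (i : ℕ) : ℝ := 1 / (2 ^ i * 2 ^ 2 ^ (i + 1))

theorem bb_pos (i : ℕ) : 0 < bb i := by unfold bb; positivity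

theorem bb_half (i : ℕ) : bb (i + 1) ≤ bb i / 2 := by
  unfold bb
  rw [div_div]
  apply one_div_le_one_div_of_le (by positivity)
  have h1 : (2 : ℝ) ^ 2 ^ (i + 1) ≤ 2 ^ 2 ^ (i + 1 + 1) :=
    pow_le_pow_right₀ (by norm_num) (Nat.pow_le_pow_right (by norm_num) (by omega))
  have h2 : (2 : ℝ) ^ (i + 1) = 2 ^ i * 2 := pow_succ _ _
  rw [h2]
  have h3 : (0 : ℝ) < 2 ^ i := by positivity
  nlinarith

theorem prob_Brk (hl : ∀ x, (P (pl x)).real {0} = Real.exp (-τ))
    (hk : ∀ i x, (P (pk i x)).real {0} = Real.exp (-τ * bb i)) (hτ : 0 ≤ τ) (k : ℕ) (h : H)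
    (a : ℤ) : pp τ k ≤ (Measure.infinitePi P).real (Brk k h a (a + (2 ^ 2 ^ k : ℕ))) := by
  induction k generalizing h a with
  | zero =>
    refine (prob_base hl h a).trans (measureReal_mono (Brk_mono le_rfl ?_) (measure_ne_top _ _))
    norm_num
  | succ k ih =>
    obtain ⟨hp0, hp1⟩ := pp_pos hτ k
    have hw : ∀ h a, 1 - (1 - pp τ k) ^ (2 ^ 2 ^ k) ≤
        (Measure.infinitePi P).real (Brk k h a (a + (2 ^ 2 ^ (k + 1) : ℕ))) := by
      intro h a
      have h1 := prob_window (P := P) hp1 ih (2 ^ 2 ^ k) h a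
      rw [probReal_compl_eq_one_sub ((Brk_det _ _ _ _).meas (Ed_finite _ _ _ _))] at h1
      have e : 2 ^ 2 ^ k * 2 ^ 2 ^ k = 2 ^ 2 ^ (k + 1) := by
        rw [← pow_add, ← two_mul, ← pow_succ']
      rw [e] at h1
      linarith
    have hnn : 0 ≤ 1 - (1 - pp τ k) ^ (2 ^ 2 ^ k) := by
      have : (1 - pp τ k) ^ (2 ^ 2 ^ k) ≤ 1 := pow_le_one₀ (by linarith) (by linarith)
      linarith
    have h2 := prob_merge (P := P) hk hτ (fun i => (bb_pos i).le) hnn hw h a
    refine le_trans (le_of_eq ?_) h2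
    have e : bb k * (2 ^ k * ((2 ^ 2 ^ (k + 1) : ℕ) : ℝ)) = 1 := by
      unfold bb; push_cast; field_simp
    rw [e, mul_one]
    rfl

/-- **All clusters are finite.** -/
theorem no_infinite {G : (PairT X → ℕ) → SimpleGraph X}
    (hG : ∀ ω x z, (G ω).Adj x z ↔ opn ω x z)
    (hl : ∀ x, (P (pl x)).real {0} = Real.exp (-τ))
    (hk : ∀ i x, (P (pk i x)).real {0} = Real.exp (-τ * bb i)) (hτ : 0 ≤ τ)
    (hz : ∀ x z (hd : ¬ (s(x, z)).IsDiag), ¬ Nb x z → P ⟨s(x, z), hd⟩ {0} = 1) (o : X) :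
    Measure.infinitePi P {ω | {y | (G ω).Reachable o y}.Infinite} = 0 := by
  set Q := Measure.infinitePi P with hQ
  obtain ⟨y0, h⟩ := o
  -- pairs of zero weight are closed
  have hnull : Q {ω | ¬ ∀ x z, opn ω x z → Nb x z} = 0 := by
    have hsub : {ω : PairT X → ℕ | ¬ ∀ x z, opn ω x z → Nb x z} ⊆
        ⋃ q : {q : X × X // (¬ (s(q.1, q.2)).IsDiag) ∧ ¬ Nb q.1 q.2},
          {ω | ω ⟨s(q.1.1, q.1.2), q.2.1⟩ ≠ 0} := by
      intro ω hω
      simp only [Set.mem_ofPred_eq, not_forall] at hω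
      obtain ⟨x, z, ⟨h1, h2⟩, h3⟩ := hω
      rw [Set.mem_iUnion]
      exact ⟨⟨(x, z), h1, h3⟩, h2.ne'⟩
    refine measure_mono_null hsub (measure_iUnion_null fun q => ?_)
    rw [hQ, prob_open, hz _ _ _ q.2.2]
    simp
  -- the quantitative bound
  have hbound : ∀ ε : ℝ, 0 < ε → Q {ω | {y | (G ω).Reachable (y0, h) y}.Infinite} ≤
      ENNReal.ofReal (3 * ε) := by
    intro ε hε
    have hδ0 : 0 < Real.exp (-τ) / 4 := by positivity
    have hδ1 : Real.exp (-τ) / 4 ≤ 1 / 4 := by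
      have : Real.exp (-τ) ≤ 1 := by rw [Real.exp_le_one_iff]; linarith
      linarith
    obtain ⟨n, hn⟩ := exists_pow_lt_of_lt_one hε
      (by linarith : 1 - Real.exp (-τ) / 4 < 1)
    obtain ⟨K, hK⟩ := exists_nat_gt ((4 * n + 2) * τ / ε)
    obtain ⟨k, hkK, hpk⟩ := pp_large hτ K
    obtain ⟨hp0, hp1⟩ := pp_pos hτ k
    set M : ℕ := 2 ^ 2 ^ k with hM
    set N : ℕ := n * M with hN
    have hfail : ∀ a : ℤ, Q (Brk k h a (a + N))ᶜ ≤ ENNReal.ofReal ε := by
      intro a
      have h1 := prob_window (P := P) hp1 (prob_Brk hl hk hτ k) n h a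
      have h2 : (1 - pp τ k) ^ n ≤ (1 - Real.exp (-τ) / 4) ^ n :=
        pow_le_pow_left₀ (by linarith) (by linarith) n
      have h3 : Q.real (Brk k h a (a + N))ᶜ ≤ ε := (h1.trans h2).trans hn.le
      rw [measureReal_def] at h3
      exact (ENNReal.le_ofReal_iff_toReal_le (measure_ne_top _ _) hε.le).2 h3
    have hout : Q (Out k h y0 N)ᶜ ≤ ENNReal.ofReal ε := by
      refine (prob_Out (P := P) hk hτ (fun i => (bb_pos i).le) bb_half k h y0 N).trans ?_
      apply ENNReal.ofReal_le_ofReal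
      have hMpos : (0 : ℝ) < (M : ℝ) := by rw [hM]; positivity
      have e : (2 * (N : ℝ) + 1) * 2 ^ k * (2 * τ * bb k) =
          (2 * (N : ℝ) + 1) * (2 * τ) / ((M : ℝ) * M) := by
        have e1 : bb k = 1 / (2 ^ k * ((M : ℝ) * M)) := by
          unfold bb
          congr 2
          rw [hM]; push_cast
          rw [← pow_add, ← two_mul, ← pow_succ']
        rw [e1]; field_simp
      rw [e, hN, div_le_iff₀ (by positivity)]
      push_cast
      have hM1 : (1 : ℝ) ≤ M := by exact_mod_cast Nat.one_le_two_pow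
      have hkM : (k : ℝ) ≤ M := by
        have h1 : k < 2 ^ k := Nat.lt_two_pow_self
        have h2 : 2 ^ k < 2 ^ 2 ^ k := Nat.lt_two_pow_self
        exact_mod_cast (h1.trans h2).le
      have hKk : (K : ℝ) ≤ k := by exact_mod_cast hkK
      rw [div_lt_iff₀ hε] at hK
      have h5 : (4 * (n : ℝ) + 2) * τ ≤ M * ε := by nlinarith
      have hn0 : (0 : ℝ) ≤ n := Nat.cast_nonneg n
      calc (2 * ((n : ℝ) * M) + 1) * (2 * τ) ≤ (2 * ((n : ℝ) * M) + M) * (2 * τ) := by
            refine mul_le_mul_of_nonneg_right ?_ (by linarith)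
            linarith
        _ = ((4 * (n : ℝ) + 2) * τ) * M := by ring
        _ ≤ (M * ε) * M := mul_le_mul_of_nonneg_right h5 hMpos.le
        _ = ε * (M * M) := by ring
    have hsub : {ω | {y | (G ω).Reachable (y0, h) y}.Infinite} ⊆
        ({ω | ¬ ∀ x z, opn ω x z → Nb x z} ∪ (Brk k h (y0 - N) (y0 - N + N))ᶜ) ∪
          ((Brk k h y0 (y0 + N))ᶜ ∪ (Out k h y0 N)ᶜ) := by
      intro ω hω
      by_contra hno
      simp only [Set.mem_union, Set.mem_compl_iff, Set.mem_ofPred_eq, not_or, not_not] at hno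
      obtain ⟨⟨h1, h2⟩, h3, h4⟩ := hno
      rw [sub_add_cancel] at h2
      exact hω (finite_cluster (hG ω) h1 h2 h3 h4)
    refine (measure_mono hsub).trans ((measure_union_le _ _).trans ?_)
    refine (add_le_add (measure_union_le _ _) (measure_union_le _ _)).trans ?_
    rw [hnull, zero_add]
    refine (add_le_add (hfail _) (add_le_add (hfail _) hout)).trans ?_
    rw [← ENNReal.ofReal_add hε.le hε.le, ← ENNReal.ofReal_add hε.le (by linarith)]
    apply ENNReal.ofReal_le_ofReal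
    linarith
  by_contra hne
  have hlt : Q {ω | {y | (G ω).Reachable (y0, h) y}.Infinite} ≠ ⊤ := measure_ne_top _ _
  have hpos : 0 < (Q {ω | {y | (G ω).Reachable (y0, h) y}.Infinite}).toReal :=
    ENNReal.toReal_pos hne hlt
  have h1 := hbound ((Q {ω | {y | (G ω).Reachable (y0, h) y}.Infinite}).toReal / 6)
    (by linarith)
  rw [ENNReal.le_ofReal_iff_toReal_le hlt (by linarith)] at h1
  linarith

end Prob

end Pool.Agent.TH994.LogIso
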